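import Pool.Agent.R461.ZF.Bessel
import Pool.Agent.W353.FB.Abel

/-! Bessel's inequality for positive linear mean values along any filter. -/

set_option autoImplicit false

namespace Pool.Agent.R461.RF

open Complex Filter Topology NumberField IsDedekindDomain Polynomial
  Pool.Agent.W401.Cheb Pool.Agent.W540.BE Pool.Agent.W353.L1 Pool.Agent.W353.AT
open Pool.Agent.W353.SP

/-- the consequences of the inequality for the sums of squares -/
theorem conseq {ι : Type} {l : Filter ι} [l.NeBot] {β : Type} {e : β → ℝ} (he : ∀ b, 0 < e b)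
    {x : β → ι → ℝ} {r : ℝ}
    (h : ∀ (S : Finset β) (η : ℝ), 0 < η → ∀ᶠ T in l, ∑ b ∈ S, x b T ^ 2 / e b ≤ r ^ 2 + η) :
    (∀ δ : ℝ, 0 < δ → {b : β | ∀ᶠ T in l, δ * √(e b) ≤ |x b T|}.Finite ∧
      ({b : β | ∀ᶠ T in l, δ * √(e b) ≤ |x b T|}.ncard : ℝ) ≤ r ^ 2 / δ ^ 2) ∧
    (Countable β → ∀ T : ℕ → ι, Tendsto T atTop l → ∃ φ : ℕ → ℕ, StrictMono φ ∧
      ∃ y : β → ℝ, (∀ b, Tendsto (fun j => x b (T (φ j))) atTop (𝓝 (y b))) ∧
        Summable (fun b => y b ^ 2 / e b) ∧ ∑' b, y b ^ 2 / e b ≤ r ^ 2) ∧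
    (r = 0 → ∀ b, Tendsto (x b) l (𝓝 0)) := by
  classical
  refine ⟨fun δ hδ => ?_, fun hβ T hT => ?_, fun hr b => ?_⟩
  · set P : Set β := {b : β | ∀ᶠ T in l, δ * √(e b) ≤ |x b T|} with hP
    have key : ∀ S : Finset β, (S : Set β) ⊆ P → (S.card : ℝ) * δ ^ 2 ≤ r ^ 2 := by
      intro S hS
      refine le_of_forall_pos_le_add fun η hη => ?_
      have h1 : ∀ᶠ T in l, ∀ b ∈ S, δ * √(e b) ≤ |x b T| := by
        rw [Filter.eventually_all_finset]
        intro b hb
        exact hS hb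
      obtain ⟨T, h2, h3⟩ := (h1.and (h S η hη)).exists
      refine le_trans ?_ h3
      have h4 : (S.card : ℝ) * δ ^ 2 = ∑ b ∈ S, δ ^ 2 := by
        rw [Finset.sum_const, nsmul_eq_mul]
      rw [h4]
      refine Finset.sum_le_sum fun b hb => ?_
      rw [le_div_iff₀ (he b)]
      have h5 := pow_le_pow_left₀ (by positivity) (h2 b hb) 2
      rwa [mul_pow, Real.sq_sqrt (he b).le, sq_abs] at h5
    have hfin : P.Finite := by
      by_contra hinf
      have hinf' : P.Infinite := hinf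
      obtain ⟨m, hm⟩ := exists_nat_gt (r ^ 2 / δ ^ 2)
      obtain ⟨S, hS, hcard⟩ := hinf'.exists_subset_card_eq m
      have h1 := key S hS
      rw [hcard] at h1
      rw [div_lt_iff₀ (by positivity)] at hm
      linarith
    refine ⟨hfin, ?_⟩
    have h1 := key hfin.toFinset (by rw [Set.Finite.coe_toFinset])
    rw [← Set.ncard_eq_toFinset_card P hfin] at h1
    rw [le_div_iff₀ (by positivity)]
    exact h1
  · have hbd : ∀ b, ∃ C : ℝ, ∀ᶠ j in atTop, |x b (T j)| ≤ C := by
      intro b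
      refine ⟨√((r ^ 2 + 1) * e b), ?_⟩
      filter_upwards [hT.eventually (h {b} 1 one_pos)] with j hj
      rw [Finset.sum_singleton, div_le_iff₀ (he b)] at hj
      exact Real.abs_le_sqrt hj
    obtain ⟨φ, hφ, y, hy⟩ := diag (fun b j => x b (T j)) hbd
    have hTφ : Tendsto (fun j => T (φ j)) atTop l := hT.comp hφ.tendsto_atTop
    have hsum : ∀ S : Finset β, ∑ b ∈ S, y b ^ 2 / e b ≤ r ^ 2 := by
      intro S
      refine le_of_forall_pos_le_add fun η hη => ?_
      refine le_of_tendsto (tendsto_finsetSum S fun b _ => ((hy b).pow 2).div_const (e b)) ?_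
      exact hTφ.eventually (h S η hη)
    have hs : Summable fun b => y b ^ 2 / e b :=
      summable_of_sum_le (fun b => div_nonneg (sq_nonneg _) (he b).le) hsum
    exact ⟨φ, hφ, y, hy, hs, hs.tsum_le_of_sum_le hsum⟩
  · rw [Metric.tendsto_nhds]
    intro ε hε
    have hη : 0 < ε ^ 2 / (2 * e b) := by
      have := he b
      positivity
    filter_upwards [h {b} _ hη] with T hT
    rw [Finset.sum_singleton, hr, div_le_iff₀ (he b)] at hT
    have h1 : (0 ^ 2 + ε ^ 2 / (2 * e b)) * e b = ε ^ 2 / 2 := by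
      have := (he b).ne'
      field_simp
      ring
    rw [h1] at hT
    rw [Real.dist_eq, sub_zero]
    have h2 : |x b T| ^ 2 < ε ^ 2 := by
      rw [sq_abs]
      have : 0 < ε ^ 2 := by positivity
      linarith
    exact lt_of_pow_lt_pow_left₀ 2 hε.le h2

section
variable {K : Type} [Field K] [NumberField K] {ι : Type}

/-- a positive linear functional on the bounded functions -/
structure PL (E : (HeightOneSpectrum (𝓞 K) → ℝ) → ℝ) : Prop where
  add : ∀ f g, Bd f → Bd g → E (fun v => f v + g v) = E f + E g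
  smul : ∀ (c : ℝ) f, E (fun v => c * f v) = c * E f
  mono : ∀ f g, Bd f → Bd g → (∀ v, f v ≤ g v) → E f ≤ E g

variable {E : (HeightOneSpectrum (𝓞 K) → ℝ) → ℝ}

theorem Bd.smul {f : HeightOneSpectrum (𝓞 K) → ℝ} (hf : Bd f) (c : ℝ) : Bd fun v => c * f v :=
  (Bd.const c).mul hf

theorem Bd.sum {β : Type} (S : Finset β) {f : β → HeightOneSpectrum (𝓞 K) → ℝ}
    (hf : ∀ b ∈ S, Bd (f b)) : Bd fun v => ∑ b ∈ S, f b v := by
  classical
  induction S using Finset.induction_on with
  | empty =>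
    simp only [Finset.sum_empty]
    exact Bd.const 0
  | insert b S hb ih =>
    have h1 := (hf b (Finset.mem_insert_self b S)).add
      (ih fun b' hb' => hf b' (Finset.mem_insert_of_mem hb'))
    refine (funext fun v => ?_ : (fun v => f b v + ∑ b' ∈ S, f b' v) =
      fun v => ∑ b' ∈ insert b S, f b' v) ▸ h1
    rw [Finset.sum_insert hb]

theorem PL.zero (h : PL E) : E (fun _ => 0) = 0 := by
  have := h.smul 0 fun _ => 0
  simpa using this

theorem PL.sum (h : PL E) {β : Type} (S : Finset β) {f : β → HeightOneSpectrum (𝓞 K) → ℝ}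
    (hf : ∀ b ∈ S, Bd (f b)) (c : β → ℝ) :
    E (fun v => ∑ b ∈ S, c b * f b v) = ∑ b ∈ S, c b * E (f b) := by
  classical
  induction S using Finset.induction_on with
  | empty =>
    simp only [Finset.sum_empty]
    exact h.zero
  | insert b S hb ih =>
    have h0 := fun b' hb' => hf b' (Finset.mem_insert_of_mem hb')
    rw [Finset.sum_insert hb, ← ih h0, ← h.smul,
      ← h.add _ _ (Bd.smul (hf b (Finset.mem_insert_self b S)) _)
        (Bd.sum S fun b' hb' => Bd.smul (h0 b' hb') _)]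
    congr 1
    funext v
    rw [Finset.sum_insert hb]

theorem PL.nonneg (h : PL E) {f : HeightOneSpectrum (𝓞 K) → ℝ} (hf : Bd f) (h0 : ∀ v, 0 ≤ f v) :
    0 ≤ E f := by
  have := h.mono (fun _ => 0) f (Bd.const 0) hf h0
  rwa [h.zero] at this

theorem PL.sub (h : PL E) {f g : HeightOneSpectrum (𝓞 K) → ℝ} (hf : Bd f) (hg : Bd g) :
    E (fun v => f v - g v) = E f - E g := by
  have h1 := h.add f (fun v => (-1) * g v) hf (Bd.smul hg _)
  rw [h.smul] at h1
  have h2 : (fun v => f v - g v) = fun v => f v + (-1) * g v := by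
    funext v
    ring
  rw [h2, h1]
  ring

/-- the expansion of the square -/
theorem PL.expand (h : PL E) {β : Type} (S : Finset β) {w : HeightOneSpectrum (𝓞 K) → ℝ}
    (hw : Bd w) {u : β → HeightOneSpectrum (𝓞 K) → ℝ} (hu : ∀ b, Bd (u b)) (c : β → ℝ) :
    0 ≤ E (fun v => w v * w v) - 2 * (∑ b ∈ S, c b * E fun v => w v * u b v) +
      ∑ b ∈ S, ∑ b' ∈ S, c b * c b' * E fun v => u b v * u b' v := by
  classical
  have hb1 : ∀ b ∈ S, Bd fun v => w v * u b v := fun b _ => hw.mul (hu b)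
  have hb2 : ∀ b b', Bd fun v => u b v * u b' v := fun b b' => (hu b).mul (hu b')
  have hb3 : ∀ b ∈ S, Bd fun v => ∑ b' ∈ S, c b' * (u b v * u b' v) := fun b _ =>
    Bd.sum S fun b' _ => Bd.smul (hb2 b b') _
  have e1 : ∀ v, (w v - ∑ b ∈ S, c b * u b v) ^ 2 = w v * w v +
      ((-2) * (∑ b ∈ S, c b * (w v * u b v)) +
        ∑ b ∈ S, c b * ∑ b' ∈ S, c b' * (u b v * u b' v)) := by
    intro v
    have h1 : ∑ b ∈ S, c b * (w v * u b v) = w v * ∑ b ∈ S, c b * u b v := by
      rw [Finset.mul_sum]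
      exact Finset.sum_congr rfl fun k _ => by ring
    have h2 : ∑ b ∈ S, c b * ∑ b' ∈ S, c b' * (u b v * u b' v) =
        (∑ b ∈ S, c b * u b v) * ∑ b ∈ S, c b * u b v := by
      rw [Finset.sum_mul]
      refine Finset.sum_congr rfl fun k _ => ?_
      rw [Finset.mul_sum, Finset.mul_sum]
      exact Finset.sum_congr rfl fun k' _ => by ring
    rw [h1, h2]
    ring
  have hB : Bd fun v => (w v - ∑ b ∈ S, c b * u b v) ^ 2 := by
    have h1 : Bd fun v => w v + -(∑ b ∈ S, c b * u b v) :=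
      hw.add (Bd.sum S fun b _ => Bd.smul (hu b) _).neg
    have h2 := h1.mul h1
    refine (funext fun v => ?_ : (fun v => (w v + -(∑ b ∈ S, c b * u b v)) *
      (w v + -(∑ b ∈ S, c b * u b v))) = fun v => (w v - ∑ b ∈ S, c b * u b v) ^ 2) ▸ h2
    ring
  have h0 := h.nonneg hB fun v => sq_nonneg _
  rw [funext e1, h.add _ _ (hw.mul hw) ((Bd.smul (Bd.sum S fun b hb => Bd.smul (hb1 b hb) _)
    _).add (Bd.sum S fun b hb => Bd.smul (hb3 b hb) _)), h.add _ _
    (Bd.smul (Bd.sum S fun b hb => Bd.smul (hb1 b hb) _) _)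
    (Bd.sum S fun b hb => Bd.smul (hb3 b hb) _), h.smul, h.sum S hb1, h.sum S hb3] at h0
  have h3 : ∑ b ∈ S, c b * E (fun v => ∑ b' ∈ S, c b' * (u b v * u b' v)) =
      ∑ b ∈ S, ∑ b' ∈ S, c b * c b' * E fun v => u b v * u b' v := by
    refine Finset.sum_congr rfl fun b _ => ?_
    rw [h.sum S (fun b' _ => hb2 b b'), Finset.mul_sum]
    exact Finset.sum_congr rfl fun b' _ => by ring
  rw [h3] at h0
  linarith

/-- **Bessel's inequality for functions close to mean values.** -/
theorem bessel_pl {l : Filter ι} {E : ι → (HeightOneSpectrum (𝓞 K) → ℝ) → ℝ}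
    (hM : Mn l E) (hE : ∀ᶠ i in l, PL (E i))
    {β : Type} {u : β → HeightOneSpectrum (𝓞 K) → ℝ} (hu : ∀ b, Bd (u b))
    {e : β → ℝ} (he : ∀ b, 0 < e b)
    (hdiag : ∀ b, Tendsto (fun i => E i fun v => u b v * u b v) l (𝓝 (e b)))
    (hoff : ∀ b b', b ≠ b' → Tendsto (fun i => E i fun v => u b v * u b' v) l (𝓝 0))
    {w : HeightOneSpectrum (𝓞 K) → ℝ} {r : ℝ} (hw : ∀ v, |w v| ≤ |r|) {x : β → ι → ℝ}
    (hx : ∀ b, Tendsto (fun i => x b i - E i fun v => w v * u b v) l (𝓝 0))
    (S : Finset β) {η : ℝ} (hη : 0 < η) :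
    ∀ᶠ i in l, ∑ b ∈ S, x b i ^ 2 / e b ≤ r ^ 2 + η := by
  classical
  have hwb : Bd w := ⟨|r|, hw⟩
  have hbd : ∀ k ∈ S, ∃ C : ℝ, ∀ᶠ i in l, |E i fun v => w v * u k v| ≤ C := by
    intro k _
    obtain ⟨B, hB⟩ := hwb.mul (hu k)
    exact ⟨_, hM.bound hB⟩
  have hpos : ∀ᶠ i in l, ∀ c : β → ℝ, 0 ≤ (E i fun v => w v * w v) -
      2 * (∑ k ∈ S, c k * E i fun v => w v * u k v) +
      ∑ k ∈ S, ∑ k' ∈ S, c k * c k' * E i fun v => u k v * u k' v := by
    filter_upwards [hE] with i hi c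
    exact hi.expand S hwb hu c
  have hmain := Pool.Agent.R461.ZF.bessel_gen S (A := fun i => E i fun v => w v * w v)
    (x := fun k i => E i fun v => w v * u k v) (G := fun k k' i => E i fun v => u k v * u k' v)
    hpos hbd (fun k _ k' _ hk => hoff k k' hk) he (fun k _ => hdiag k)
    (show 0 < η / 3 by positivity)
  have h1 : Tendsto (fun i => r ^ 2 * E i fun _ => 1) l (𝓝 (r ^ 2)) := by
    have := hM.one.const_mul (r ^ 2)
    rwa [mul_one] at this
  have hmono := hM.mono (fun v => w v * w v) (fun _ => r ^ 2 * 1) (hwb.mul hwb)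
    (Bd.const _) (fun v => by
      rw [mul_one, ← sq, ← sq_abs, ← sq_abs r]
      exact pow_le_pow_left₀ (abs_nonneg _) (hw v) 2)
  have hsq : Tendsto (fun i => ∑ b ∈ S, (x b i ^ 2 / e b -
      (E i fun v => w v * u b v) ^ 2 / e b)) l (𝓝 0) := by
    have h2 : ∀ b ∈ S, Tendsto (fun i => x b i ^ 2 / e b -
        (E i fun v => w v * u b v) ^ 2 / e b) l (𝓝 0) := by
      intro b hb
      have h3 := hx b
      set y : ι → ℝ := fun i => E i fun v => w v * u b v with hy
      obtain ⟨C, h6⟩ := hbd b hb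
      have h7 : Tendsto (fun i => (x b i - y i) * (x b i - y i) + 2 * ((x b i - y i) * y i)) l
          (𝓝 0) := by
        have h8 : Tendsto (fun i => (x b i - y i) * y i) l (𝓝 0) := by
          refine squeeze_zero_norm' (a := fun i => |x b i - y i| * C) ?_ ?_
          · filter_upwards [h6] with i hi
            rw [Real.norm_eq_abs, abs_mul]
            exact mul_le_mul_of_nonneg_left hi (abs_nonneg _)
          · have := h3.abs.mul_const C
            rwa [abs_zero, zero_mul] at this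
        have h9 := (h3.mul h3).add (h8.const_mul 2)
        rw [mul_zero, mul_zero, add_zero] at h9
        exact h9
      have h10 := h7.div_const (e b)
      rw [zero_div] at h10
      refine h10.congr fun i => ?_
      ring
    have h3 := tendsto_finsetSum S h2
    rwa [Finset.sum_const_zero] at h3
  filter_upwards [hmain, hmono, h1.eventually_le_const (show r ^ 2 < r ^ 2 + η / 3 by linarith),
    hsq.eventually_le_const (show (0 : ℝ) < η / 3 by positivity)] with i g1 g2 g3 g4
  rw [Finset.sum_sub_distrib] at g4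
  have g5 : (E i fun _ => r ^ 2 * 1) = r ^ 2 * E i fun _ => 1 := hM.smul _ _ i
  rw [g5] at g2
  linarith

open Pool.Agent.W353.FB in
/-- the analytic mean values are positive linear functionals -/
theorem pl_EA : ∀ᶠ s : ℝ in 𝓝[>] 1, PL (EA K s) := by
  filter_upwards [self_mem_nhdsWithin] with s hs
  have hs' : (1 : ℝ) < s := hs
  refine ⟨fun f g hf hg => ?_, fun c f => (mnA K).smul c f s, fun f g hf hg hfg => ?_⟩
  · unfold EA Pool.Agent.H126V.FC.DS
    rw [← mul_add, ← (summable_EA hf hs').tsum_add (summable_EA hg hs')]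
    congr 1
    refine tsum_congr fun v => ?_
    rw [term_empty, term_empty, term_empty]
    ring
  · unfold EA Pool.Agent.H126V.FC.DS
    have h0 : (0 : ℝ) ≤ s - 1 := by linarith
    refine mul_le_mul_of_nonneg_left ?_ h0
    refine Summable.tsum_le_tsum (fun v => ?_) (summable_EA hf hs') (summable_EA hg hs')
    rw [term_empty, term_empty]
    have h1 : (0 : ℝ) ≤ Real.log (Pool.Agent.H921R2.TatePole.nm v) :=
      Real.log_natCast_nonneg _
    exact mul_le_mul_of_nonneg_right (mul_le_mul_of_nonneg_right (hfg v) h1) (by positivity)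

end

end Pool.Agent.R461.RF
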