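import Pool.Agent.W353.FB.Defs

/-!
# Residues for the fibre products of a fibration with constant varieties: definitions

`K` is a number field.  `Fibration`, `points`, `IsAverage`, `cone`, `IsTrace`, `LocalValue` and `ValueAt` are
defined in `Pool.Agent.W353.FB.Defs`.
-/

set_option autoImplicit false

namespace Pool.Agent.R461.RF

open NumberField IsDedekindDomain Filter Topology
open Pool.Agent.W353.FB (Fibration LocalValue IsTrace ValueAt cone)

section
variable {K : Type} [Field K] [NumberField K]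

/-- `a` is the trace of the Frobenius on `H^i(X)`, for the projective variety `X` over `K`, of dimension
at most `d`. -/
def traceValue {l : ℕ} (X : Set (MvPolynomial (Fin l) (𝓞 K))) (d i : ℕ) : LocalValue K :=
  fun _ _ φ a => IsTrace X d i φ a

/-- `A` is the fibre average of the traces of the Frobenius on `H^i` of the fibres of `f`. -/
def averageValue (f : Fibration K) (i : ℕ) : LocalValue K := fun _ _ φ A => f.IsAverage i φ A

/-- The numbers `𝔅_v` of the question for the fibration `f`, for `v ∉ R`: the fibre averages of the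
traces on `H²`; and `|𝔅_v| ≤ c q_v` with some constant `c`. -/
def IsAverages (f : Fibration K) (R : Finset (HeightOneSpectrum (𝓞 K)))
    (𝔅 : HeightOneSpectrum (𝓞 K) → ℝ) : Prop :=
  (∀ v, v ∉ R → ValueAt (averageValue f 2) v (𝔅 v)) ∧
  ∃ c : ℝ, ∀ v, v ∉ R → |𝔅 v| ≤ c * (Ideal.absNorm v.asIdeal : ℝ)

/-- The numbers `𝔄*_v = 𝔄_v - a_v(B)` for `v ∉ R`, for the fibre averages `𝔄_v` of the traces on `H¹` and
the Chow trace `B` of the fibration, given as a projective variety of dimension at most `g`; and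
`|𝔄*_v| ≤ c` with some constant `c`. -/
def IsNagao (f : Fibration K) {k : ℕ} (B : Set (MvPolynomial (Fin k) (𝓞 K))) (g : ℕ)
    (R : Finset (HeightOneSpectrum (𝓞 K))) (𝔄 : HeightOneSpectrum (𝓞 K) → ℝ) : Prop :=
  (∀ v, v ∉ R → ∃ a : ℝ, ValueAt (traceValue B g 1) v a ∧
    ValueAt (averageValue f 1) v (𝔄 v + a)) ∧
  ∃ c : ℝ, ∀ v, v ∉ R → |𝔄 v| ≤ c

/-- For almost all primes `v` the fibres of `f` over the given open part of the base are geometrically
connected, that is the trace on their `H⁰` is `1`, and the number of the points of the open part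
of the base over the residue field is `q_v^m`, up to an error of absolute value at most
`c q_v^{m - 1/2}`.  (The second holds by the theorem of Lang and Weil, `𝒴` being geometrically
irreducible of dimension `m`.) -/
def IsConnected (f : Fibration K) : Prop :=
  (∀ᶠ v : HeightOneSpectrum (𝓞 K) in cofinite, ∀ (κ : Type) [Field κ] (φ : 𝓞 K →+* κ),
    RingHom.ker φ = v.asIdeal → Nat.card κ = Ideal.absNorm v.asIdeal → ∀ t ∈ f.points φ,
      IsTrace f.eqFibre f.r 0 (MvPolynomial.eval₂Hom φ t) 1) ∧
  ∃ c : ℝ, ∀ᶠ v : HeightOneSpectrum (𝓞 K) in cofinite, ∀ (κ : Type) [Field κ] (φ : 𝓞 K →+* κ),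
    RingHom.ker φ = v.asIdeal → Nat.card κ = Ideal.absNorm v.asIdeal →
      |((f.points φ).ncard : ℝ) - (Ideal.absNorm v.asIdeal : ℝ) ^ f.m| ≤
        c * (Ideal.absNorm v.asIdeal : ℝ) ^ f.m / √(Ideal.absNorm v.asIdeal : ℝ)

end

/-- A geometrically connected smooth projective variety `C` of dimension `d ≥ 1` over `K`, given by a
set `X` of homogeneous polynomials in `l` variables: outside the finite set `R` of primes, `a v` and
`b v` are the traces of the Frobenius on `H¹(C)` and `H²(C)`, of absolute value at most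
`N₁ q_v^{1/2}` and `N₂ q_v` (`N₁`, `N₂` are the Betti numbers); the trace on `H⁰(C)` is `1`. -/
structure Var (K : Type) [Field K] [NumberField K] where
  l : ℕ
  X : Set (MvPolynomial (Fin l) (𝓞 K))
  d : ℕ
  N₁ : ℕ
  N₂ : ℕ
  R : Finset (HeightOneSpectrum (𝓞 K))
  a : HeightOneSpectrum (𝓞 K) → ℝ
  b : HeightOneSpectrum (𝓞 K) → ℝ
  one_le : 1 ≤ d
  trace₀ : ∀ v, v ∉ R → ValueAt (traceValue X d 0) v 1
  trace₁ : ∀ v, v ∉ R → ValueAt (traceValue X d 1) v (a v)
  trace₂ : ∀ v, v ∉ R → ValueAt (traceValue X d 2) v (b v)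
  weil₁ : ∀ v, v ∉ R → |a v| ≤ N₁ * √(Ideal.absNorm v.asIdeal : ℝ)
  weil₂ : ∀ v, v ∉ R → |b v| ≤ N₂ * (Ideal.absNorm v.asIdeal : ℝ)

section
variable {K : Type} [Field K] [NumberField K]

/-- The fibration over the base of `f` whose fibre over `t` is given by the homogeneous equations
`E(t, u) = 0` in `k` variables, of dimension at most `f.r + C.d`. -/
def times (f : Fibration K) (C : Var K) {k : ℕ}
    (E : Set (MvPolynomial (Fin k) (MvPolynomial (Fin f.l) (𝓞 K)))) : Fibration K where
  l := f.l
  eqBase := f.eqBase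
  h := f.h
  m := f.m
  n := k
  eqFibre := E
  r := f.r + C.d
  one_le := le_trans f.one_le (Nat.le_add_right _ _)

/-- The fibre of `times f C E` over `t` is the product of the fibre `X_t` of `f` and of the constant
variety `C`, in any embedding into a projective space: outside a finite set of primes, over every
finite extension `κ` of the residue field and for all points `t` of the base over `κ`, the number of
the points of the fibre is the product of the numbers of the points of `X_t` and of `C`. -/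
def IsProduct (f : Fibration K) (C : Var K) {k : ℕ}
    (E : Set (MvPolynomial (Fin k) (MvPolynomial (Fin f.l) (𝓞 K)))) : Prop :=
  ∀ᶠ v : HeightOneSpectrum (𝓞 K) in cofinite, ∀ (κ : Type) [Field κ] [Finite κ] (φ : 𝓞 K →+* κ),
    RingHom.ker φ = v.asIdeal → ∀ t ∈ f.points φ,
      (Nat.card κ - 1) * cone E (MvPolynomial.eval₂Hom φ t) =
        cone f.eqFibre (MvPolynomial.eval₂Hom φ t) * cone C.X φ

open Classical in
/-- The series `F(s) = ∑_{v ∉ R} c_v log(q_v) q_v^{-s}` of the question, for real `s > 2`. -/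
noncomputable def series (R : Finset (HeightOneSpectrum (𝓞 K)))
    (c : HeightOneSpectrum (𝓞 K) → ℝ) (s : ℝ) : ℝ :=
  ∑' v : HeightOneSpectrum (𝓞 K), if v ∈ R then 0 else
    c v * Real.log (Ideal.absNorm v.asIdeal : ℝ) * (Ideal.absNorm v.asIdeal : ℝ) ^ (-s)

/-- `(s - 2) F(s)`; its limit for `s → 2+` is the residue of `F` at `s = 2`. -/
noncomputable def res (R : Finset (HeightOneSpectrum (𝓞 K)))
    (c : HeightOneSpectrum (𝓞 K) → ℝ) (s : ℝ) : ℝ :=
  (s - 2) * series R c s

open Classical in
/-- The residues at `s = 2` of the series for the traces `a_v(C_b) a_v(C_b')` on `H¹(C_b) ⊗ H¹(C_b')` are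
`0` for `b ≠ b'` and `e b > 0` for `b = b'`. -/
def IsFamily {β : Type} (C : β → Var K) (e : β → ℝ) : Prop :=
  (∀ b, 0 < e b ∧ Tendsto (res (C b).R fun v => (C b).a v * (C b).a v) (𝓝[>] 2) (𝓝 (e b))) ∧
  ∀ b b', b ≠ b' →
    Tendsto (res ((C b).R ∪ (C b').R) fun v => (C b).a v * (C b').a v) (𝓝[>] 2) (𝓝 0)

/-- `r` is the dimension of the complement in `H¹(B)` of the sum of the `n b` copies of the `H¹(C b)`:
outside a finite set of primes the trace of the Frobenius on `H¹(B)` is the sum of the `n b a_v(C b)` and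
of `r` complex numbers of absolute value `q_v^{1/2}`. -/
def Complement {k : ℕ} (B : Set (MvPolynomial (Fin k) (𝓞 K))) (g : ℕ) {β : Type} (C : β → Var K)
    (n : β →₀ ℕ) (r : ℕ) : Prop :=
  ∀ᶠ v in cofinite, ∃ (a : ℝ) (γ : Fin r → ℂ), ValueAt (traceValue B g 1) v a ∧
    (∀ j, ‖γ j‖ = √(Ideal.absNorm v.asIdeal : ℝ)) ∧
    (a : ℂ) = ∑ b ∈ n.support, ((n b : ℝ) * (C b).a v : ℝ) + ∑ j, γ j

end

end Pool.Agent.R461.RF
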