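import Pool.Agent.W353.FB.Final
import Pool.Agent.R461.TB.Kun
import Pool.Agent.R461.RF.Defs

/-! The formula of Künneth for the fibres, from the numbers of points, and the fibre averages. -/

set_option autoImplicit false

namespace Pool.Agent.R461.RF

open Complex Filter Topology NumberField IsDedekindDomain
open Pool.Agent.W353.FB (Fibration LocalValue IsTrace ValueAt cone)
open Pool.Agent.W353.PV (mult_unique)
open Pool.Agent.R461.TB (conv tens tens_pow tens_sum mem_tens)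

section
variable {R : Type} [CommRing R] {n : ℕ}

/-- the system of all eigenvalues -/
structure Sys (X : Set (MvPolynomial (Fin n) R)) (r : ℕ) {κ : Type} [Field κ] (φ : R →+* κ)
    (β : ℕ → Multiset ℂ) : Prop where
  norm : ∀ k, ∀ z ∈ β k, ‖z‖ = (Nat.card κ : ℝ) ^ ((k : ℝ) / 2)
  count : ∀ (κ' : Type) [Field κ'] [Finite κ'] (θ : κ →+* κ') (e : ℕ),
    Nat.card κ' = Nat.card κ ^ e →
      (cone X (θ.comp φ) : ℂ) = ((Nat.card κ : ℂ) ^ e - 1) *
        ∑ k ∈ Finset.range (2 * r + 1), (-1 : ℂ) ^ k * ((β k).map (fun z => z ^ e)).sum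

variable {X : Set (MvPolynomial (Fin n) R)} {r : ℕ} {κ : Type} [Field κ] {φ : R →+* κ}

theorem exists_sys {i : ℕ} {a : ℝ} (h : IsTrace X r i φ a) :
    ∃ β, Sys X r φ β ∧ (β i).sum = a := by
  obtain ⟨β, h1, h2, h3⟩ := h
  exact ⟨β, ⟨h2, h3⟩, h1⟩

theorem pow_ne [Finite κ] {e : ℕ} (he : 1 ≤ e) : ((Nat.card κ : ℂ) ^ e - 1) ≠ 0 := by
  have hq : (1 : ℝ) < (Nat.card κ : ℝ) := by exact_mod_cast Finite.one_lt_card
  have h4 : (1 : ℝ) < (Nat.card κ : ℝ) ^ e := one_lt_pow₀ hq (by omega)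
  intro h5
  have h6 : ((Nat.card κ : ℂ) ^ e) = 1 := sub_eq_zero.1 h5
  have h7 : ((Nat.card κ : ℝ) ^ e) = 1 := by exact_mod_cast h6
  linarith

theorem Sys.unique [Finite κ] {β β' : ℕ → Multiset ℂ} (h : Sys X r φ β) (h' : Sys X r φ β')
    {i : ℕ} (hi : i ≤ 2 * r) : β i = β' i := by
  have hq : (1 : ℝ) < (Nat.card κ : ℝ) := by exact_mod_cast Finite.one_lt_card
  refine mult_unique (D := 2 * r + 1) hq h.norm h'.norm (fun e he => ?_) (by omega)
  obtain ⟨p, hp⟩ := CharP.exists κ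
  have hpp : Fact p.Prime := ⟨CharP.char_is_prime κ p⟩
  have hne : NeZero e := ⟨by omega⟩
  have hc : Nat.card (FiniteField.Extension κ p e) = Nat.card κ ^ e :=
    FiniteField.natCard_extension κ p e
  have e1 := h.count (FiniteField.Extension κ p e) (algebraMap _ _) e hc
  rw [h'.count (FiniteField.Extension κ p e) (algebraMap _ _) e hc] at e1
  exact (mul_left_cancel₀ (pow_ne he) e1).symm

theorem exists_all [Finite κ] (hr : 1 ≤ r) {a₀ a₁ a₂ : ℝ} (h0 : IsTrace X r 0 φ a₀)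
    (h1 : IsTrace X r 1 φ a₁) (h2 : IsTrace X r 2 φ a₂) :
    ∃ β, Sys X r φ β ∧ (β 0).sum = a₀ ∧ (β 1).sum = a₁ ∧ (β 2).sum = a₂ := by
  obtain ⟨β₀, s0, g0⟩ := exists_sys h0
  obtain ⟨β₁, s1, g1⟩ := exists_sys h1
  obtain ⟨β₂, s2, g2⟩ := exists_sys h2
  refine ⟨β₂, s2, ?_, ?_, g2⟩
  · rw [s2.unique s0 (by omega), g0]
  · rw [s2.unique s1 (by omega), g1]

/-- **The formula of Künneth.** -/
theorem kunneth [Finite κ] {R' R'' : Type} [CommRing R'] [CommRing R''] {n' n'' r' r'' : ℕ}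
    {Y : Set (MvPolynomial (Fin n') R')} {Z : Set (MvPolynomial (Fin n'') R'')}
    {ψ : R' →+* κ} {χ : R'' →+* κ} (hr : 1 ≤ r) (hr' : 1 ≤ r') (hr'' : r'' = r + r')
    (hc : ∀ (κ' : Type) [Field κ'] [Finite κ'] (θ : κ →+* κ'),
      (Nat.card κ' - 1) * cone Z (θ.comp χ) = cone X (θ.comp φ) * cone Y (θ.comp ψ))
    {a₁ a₂ c₁ c₂ b : ℝ} (hX0 : IsTrace X r 0 φ 1) (hX1 : IsTrace X r 1 φ a₁)
    (hX2 : IsTrace X r 2 φ a₂) (hY0 : IsTrace Y r' 0 ψ 1) (hY1 : IsTrace Y r' 1 ψ c₁)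
    (hY2 : IsTrace Y r' 2 ψ c₂) (hZ : IsTrace Z r'' 2 χ b) : b = a₂ + a₁ * c₁ + c₂ := by
  classical
  obtain ⟨β, s, h0, h1, h2⟩ := exists_all hr hX0 hX1 hX2
  obtain ⟨γ, t, k0, k1, k2⟩ := exists_all hr' hY0 hY1 hY2
  obtain ⟨ζ, u, l2⟩ := exists_sys hZ
  set β' : ℕ → Multiset ℂ := fun k => if k ≤ 2 * r then β k else 0 with hβ'
  set γ' : ℕ → Multiset ℂ := fun k => if k ≤ 2 * r' then γ k else 0 with hγ'
  set G : ℕ → Multiset ℂ := fun k =>
    (Finset.HasAntidiagonal.antidiagonal k).val.bind fun p => tens (β' p.1) (γ' p.2) with hG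
  have hβ'n : ∀ k, ∀ z ∈ β' k, ‖z‖ = (Nat.card κ : ℝ) ^ ((k : ℝ) / 2) := by
    intro k z hz
    rw [hβ'] at hz
    simp only at hz
    split_ifs at hz
    · exact s.norm k z hz
    · exact absurd hz (Multiset.notMem_zero z)
  have hγ'n : ∀ k, ∀ z ∈ γ' k, ‖z‖ = (Nat.card κ : ℝ) ^ ((k : ℝ) / 2) := by
    intro k z hz
    rw [hγ'] at hz
    simp only at hz
    split_ifs at hz
    · exact t.norm k z hz
    · exact absurd hz (Multiset.notMem_zero z)
  have hq1 : (1 : ℝ) < (Nat.card κ : ℝ) := by exact_mod_cast Finite.one_lt_card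
  have hq : (0 : ℝ) < (Nat.card κ : ℝ) := by linarith
  have hGp : ∀ k e, ((G k).map fun z => z ^ e).sum = ∑ p ∈ Finset.HasAntidiagonal.antidiagonal k,
      ((β' p.1).map fun z => z ^ e).sum * ((γ' p.2).map fun z => z ^ e).sum := by
    intro k e
    rw [hG]
    simp only
    rw [Multiset.map_bind, Multiset.sum_bind]
    simp only [tens_pow]
    rfl
  have hGS : Sys Z r'' χ G := by
    refine ⟨fun k z hz => ?_, fun κ' _ _ θ e hcard => ?_⟩
    · rw [hG] at hz
      simp only at hz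
      obtain ⟨p, hp, hz⟩ := Multiset.mem_bind.1 hz
      have hp' : p.1 + p.2 = k := Finset.HasAntidiagonal.mem_antidiagonal.1 hp
      obtain ⟨x, hx, y, hy, rfl⟩ := mem_tens hz
      rw [norm_mul, hβ'n _ x hx, hγ'n _ y hy, ← Real.rpow_add hq]
      congr 1
      have : ((p.1 : ℝ) + (p.2 : ℝ)) = k := by exact_mod_cast hp'
      linarith
    · rcases Nat.eq_zero_or_pos e with rfl | he
      · -- a field with one element
        exfalso
        rw [pow_zero] at hcard
        have : 1 < Nat.card κ' := Finite.one_lt_card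
        omega
      have e1 := hc κ' θ
      have e2 := s.count κ' θ e hcard
      have e3 := t.count κ' θ e hcard
      have hqe : ((Nat.card κ : ℂ) ^ e - 1) ≠ 0 := pow_ne he
      have hcast : ((Nat.card κ' - 1 : ℕ) : ℂ) = (Nat.card κ : ℂ) ^ e - 1 := by
        have h5 : 1 ≤ Nat.card κ' := Nat.card_pos
        rw [Nat.cast_sub h5, hcard]
        push_cast
        ring
      have e4 : ((Nat.card κ : ℂ) ^ e - 1) * (cone Z (θ.comp χ) : ℂ) =
          (cone X (θ.comp φ) : ℂ) * (cone Y (θ.comp ψ) : ℂ) := by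
        rw [← hcast]
        exact_mod_cast e1
      rw [e2, e3] at e4
      refine mul_left_cancel₀ hqe (e4.trans ?_)
      have e5 : ∑ k ∈ Finset.range (2 * r'' + 1), (-1 : ℂ) ^ k *
          ((G k).map (fun z => z ^ e)).sum =
          (∑ k ∈ Finset.range (2 * r + 1), (-1 : ℂ) ^ k * ((β' k).map (fun z => z ^ e)).sum) *
          ∑ k ∈ Finset.range (2 * r' + 1), (-1 : ℂ) ^ k * ((γ' k).map (fun z => z ^ e)).sum := by
        rw [← conv (A := 2 * r + 1) (B := 2 * r' + 1) (n := 2 * r'' + 1) (by omega)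
          (fun k => (-1 : ℂ) ^ k * ((β' k).map (fun z => z ^ e)).sum)
          (fun k => (-1 : ℂ) ^ k * ((γ' k).map (fun z => z ^ e)).sum)]
        · refine Finset.sum_congr rfl fun k _ => ?_
          rw [hGp, Finset.mul_sum]
          refine Finset.sum_congr rfl fun p hp => ?_
          rw [← Finset.HasAntidiagonal.mem_antidiagonal.1 hp, pow_add]
          ring
        · intro i hi
          have : β' i = 0 := by
            rw [hβ']
            simp only
            rw [if_neg (by omega)]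
          rw [this, Multiset.map_zero, Multiset.sum_zero, mul_zero]
        · intro i hi
          have : γ' i = 0 := by
            rw [hγ']
            simp only
            rw [if_neg (by omega)]
          rw [this, Multiset.map_zero, Multiset.sum_zero, mul_zero]
      have e6 : ∀ k ∈ Finset.range (2 * r + 1), (-1 : ℂ) ^ k *
          ((β' k).map (fun z => z ^ e)).sum = (-1 : ℂ) ^ k * ((β k).map (fun z => z ^ e)).sum := by
        intro k hk
        rw [Finset.mem_range] at hk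
        rw [hβ']
        simp only
        rw [if_pos (by omega)]
      have e7 : ∀ k ∈ Finset.range (2 * r' + 1), (-1 : ℂ) ^ k *
          ((γ' k).map (fun z => z ^ e)).sum = (-1 : ℂ) ^ k * ((γ k).map (fun z => z ^ e)).sum := by
        intro k hk
        rw [Finset.mem_range] at hk
        rw [hγ']
        simp only
        rw [if_pos (by omega)]
      rw [e5, Finset.sum_congr rfl e6, Finset.sum_congr rfl e7]
      ring
  have h5 : (G 2).sum = ∑ p ∈ Finset.HasAntidiagonal.antidiagonal 2,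
      (β' p.1).sum * (γ' p.2).sum := by
    have h6 := hGp 2 1
    simpa using h6
  have hanti : Finset.HasAntidiagonal.antidiagonal 2 =
      ({(0, 2), (1, 1), (2, 0)} : Finset (ℕ × ℕ)) := by decide
  have f1 : ∀ j, j ≤ 2 → β' j = β j := by
    intro j hj
    rw [hβ']
    simp only
    rw [if_pos (by omega)]
  have f2 : ∀ j, j ≤ 2 → γ' j = γ j := by
    intro j hj
    rw [hγ']
    simp only
    rw [if_pos (by omega)]
  rw [hanti, Finset.sum_insert (by simp), Finset.sum_insert (by simp), Finset.sum_singleton] at h5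
  simp only at h5
  rw [f1 0 (by omega), f1 1 (by omega), f1 2 le_rfl, f2 0 (by omega), f2 1 (by omega),
    f2 2 le_rfl, h0, h1, h2, k0, k1, k2] at h5
  rw [← u.unique hGS (i := 2) (by omega), l2] at h5
  have h6 : (b : ℂ) = ((a₂ + a₁ * c₁ + c₂ : ℝ) : ℂ) := by
    rw [h5]
    push_cast
    ring
  exact_mod_cast h6

end

section
variable {K : Type} [Field K] [NumberField K]

/-- the points of the base over an extension -/
theorem points_ext (f : Fibration K) {κ κ' : Type} [Field κ] [Field κ'] (φ : 𝓞 K →+* κ)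
    (θ : κ →+* κ') {t : Fin f.l → κ} (ht : t ∈ f.points φ) :
    (fun i => θ (t i)) ∈ f.points (θ.comp φ) := by
  have h1 : ∀ g : MvPolynomial (Fin f.l) (𝓞 K),
      MvPolynomial.eval₂ (θ.comp φ) (fun i => θ (t i)) g = θ (MvPolynomial.eval₂ φ t g) := by
    intro g
    rw [MvPolynomial.eval₂_comp_left θ φ t g]
    rfl
  refine ⟨fun g hg => ?_, ?_⟩
  · rw [h1, ht.1 g hg, map_zero]
  · rw [h1]
    exact fun h => ht.2 ((map_eq_zero θ).1 h)

theorem comp_eval (f : Fibration K) {κ κ' : Type} [Field κ] [Field κ'] (φ : 𝓞 K →+* κ)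
    (θ : κ →+* κ') (t : Fin f.l → κ) :
    θ.comp (MvPolynomial.eval₂Hom φ t) =
      MvPolynomial.eval₂Hom (θ.comp φ) (fun i => θ (t i)) := by
  refine RingHom.ext fun g => ?_
  exact MvPolynomial.eval₂_comp_left θ φ t g

/-- **The fibre averages of the fibre product.** -/
theorem average_times (f : Fibration K) (C : Var K) {k : ℕ}
    (E : Set (MvPolynomial (Fin k) (MvPolynomial (Fin f.l) (𝓞 K)))) {κ : Type} [Field κ] [Finite κ]
    {φ : 𝓞 K →+* κ}
    (hc : ∀ (κ' : Type) [Field κ'] [Finite κ'] (θ : κ →+* κ') (t : Fin f.l → κ'),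
      t ∈ f.points (θ.comp φ) → (Nat.card κ' - 1) * cone E (MvPolynomial.eval₂Hom (θ.comp φ) t) =
        cone f.eqFibre (MvPolynomial.eval₂Hom (θ.comp φ) t) * cone C.X (θ.comp φ))
    (h0 : ∀ t ∈ f.points φ, IsTrace f.eqFibre f.r 0 (MvPolynomial.eval₂Hom φ t) 1)
    {A A' Z c₁ c₂ : ℝ} (hA : f.IsAverage 1 φ A) (hA' : f.IsAverage 2 φ A')
    (hC0 : IsTrace C.X C.d 0 φ 1) (hC1 : IsTrace C.X C.d 1 φ c₁) (hC2 : IsTrace C.X C.d 2 φ c₂)
    (hZ : (times f C E).IsAverage 2 φ Z) :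
    Z = A' + A * c₁ + c₂ * (((f.points φ).ncard : ℝ) / (Nat.card κ : ℝ) ^ f.m) := by
  classical
  obtain ⟨a, ha, rfl⟩ := hA
  obtain ⟨a', ha', rfl⟩ := hA'
  obtain ⟨z₀, hz, hZe⟩ := hZ
  obtain ⟨z, hzz⟩ : ∃ z : (Fin f.l → κ) → ℝ, z = z₀ := ⟨z₀, rfl⟩
  subst hzz
  subst hZe
  have key : ∀ t ∈ f.points φ, z t = a' t + a t * c₁ + c₂ := by
    intro t ht
    refine kunneth f.one_le C.one_le rfl (fun κ' _ _ θ => ?_) (h0 t ht) (ha t ht) (ha' t ht)
      hC0 hC1 hC2 (hz t ht)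
    have h1 := hc κ' θ (fun i => θ (t i)) (points_ext f φ θ ht)
    rw [← comp_eval] at h1
    exact h1
  have : Fintype κ := Fintype.ofFinite κ
  have h1 : ∀ (s : Set (Fin f.l → κ)) (g : (Fin f.l → κ) → ℝ),
      ∑ᶠ t ∈ s, g t = ∑ t, if t ∈ s then g t else 0 := by
    intro s g
    rw [finsum_mem_def, finsum_eq_sum_of_fintype]
    rfl
  have h2 : ((f.points φ).ncard : ℝ) = ∑ t, if t ∈ f.points φ then (1 : ℝ) else 0 := by
    rw [Finset.sum_boole, Set.ncard_eq_toFinset_card']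
    congr 2
    ext t
    simp
  have h3 : ∑ᶠ t ∈ f.points φ, z t = (∑ᶠ t ∈ f.points φ, a' t) +
      (∑ᶠ t ∈ f.points φ, a t) * c₁ + c₂ * ((f.points φ).ncard : ℝ) := by
    rw [h1 (f.points φ) z, h1 (f.points φ) a', h1 (f.points φ) a, h2, Finset.sum_mul, Finset.mul_sum, ← Finset.sum_add_distrib,
      ← Finset.sum_add_distrib]
    refine Finset.sum_congr rfl fun t _ => ?_
    by_cases ht : t ∈ f.points φ
    · rw [if_pos ht, if_pos ht, if_pos ht, if_pos ht, key t ht, mul_one]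
    · rw [if_neg ht, if_neg ht, if_neg ht, if_neg ht]
      ring
  have h4 : ∑ᶠ t ∈ (times f C E).points φ, z t = ∑ᶠ t ∈ f.points φ, z t := rfl
  have h5 : (times f C E).m = f.m := rfl
  rw [h4, h5, h3]
  ring

end

end Pool.Agent.R461.RF
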