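import Pool.Agent.R461.BC.Main
import Pool.Agent.R461.RF.Abs
import Pool.Agent.R461.RF.Kun

/-! Residues for the fibre products of a fibration with constant varieties. -/

set_option autoImplicit false

namespace Pool.Agent.R461.RF

open Complex Filter Topology NumberField IsDedekindDomain Polynomial
  Pool.Agent.W401.Cheb Pool.Agent.W540.BE Pool.Agent.W353.L1 Pool.Agent.W353.AT
  Pool.Agent.W353.SP
open Pool.Agent.W353.FB (Fibration LocalValue IsTrace ValueAt cone isTrace_unique average_unique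
  EA mnA hsSmall)
open Pool.Agent.W353.PV (one_lt_norm exists_ext)
open Pool.Agent.R461.BC (qq one_lt_qq qq_pos sqrt_pos sqrt_mul_sqrt one_le_sqrt small_of
  valueAt_self)
open Pool.Agent.H126V.FC (DS term)

section
variable {K : Type} [Field K] [NumberField K]

/-- the shift of the variable -/
theorem tendsto_shift : Tendsto (fun s : ℝ => s - 1) (𝓝[>] 2) (𝓝[>] 1) := by
  refine tendsto_nhdsWithin_of_tendsto_nhds_of_eventually_within _ ?_ ?_
  · have h1 : Tendsto (fun s : ℝ => s - 1) (𝓝 2) (𝓝 (2 - 1)) := tendsto_id.sub_const 1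
    have h2 : (2 : ℝ) - 1 = 1 := by norm_num
    rw [h2] at h1
    exact h1.mono_left nhdsWithin_le_nhds
  · filter_upwards [self_mem_nhdsWithin] with s hs
    have hs' : (2 : ℝ) < s := hs
    change 1 < s - 1
    linarith

open Classical in
/-- the normalised coefficients, `0` on the exceptional set -/
noncomputable def cut (R : Finset (HeightOneSpectrum (𝓞 K))) (c : HeightOneSpectrum (𝓞 K) → ℝ)
    (v : HeightOneSpectrum (𝓞 K)) : ℝ := if v ∈ R then 0 else c v / qq v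

theorem res_eq (R : Finset (HeightOneSpectrum (𝓞 K))) (c : HeightOneSpectrum (𝓞 K) → ℝ) (s : ℝ) :
    res R c s = EA K (s - 1) (cut R c) := by
  unfold res series EA DS
  have e0 : s - 1 - 1 = s - 2 := by ring
  rw [e0]
  congr 1
  refine tsum_congr fun v => ?_
  rw [Pool.Agent.W353.FB.term_empty]
  unfold cut
  by_cases h : v ∈ R
  · rw [if_pos h, if_pos h]
    ring
  · rw [if_neg h, if_neg h]
    have hq := qq_pos v
    have e1 : -(s - 1) = -s + 1 := by ring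
    change c v * Real.log (qq v) * qq v ^ (-s) = c v / qq v * Real.log (qq v) * qq v ^ (-(s - 1))
    rw [e1, Real.rpow_add hq, Real.rpow_one]
    field_simp

theorem bd_cut {R : Finset (HeightOneSpectrum (𝓞 K))} {c : HeightOneSpectrum (𝓞 K) → ℝ} {C : ℝ}
    (h : ∀ v, v ∉ R → |c v| ≤ C * qq v) : Bd (cut R c) := by
  refine ⟨|C|, fun v => ?_⟩
  unfold cut
  split_ifs with hv
  · rw [abs_zero]
    exact abs_nonneg _
  · rw [abs_div, abs_of_pos (qq_pos v), div_le_iff₀ (qq_pos v)]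
    exact (h v hv).trans (mul_le_mul_of_nonneg_right (le_abs_self C) (qq_pos v).le)

theorem cut_of {R : Finset (HeightOneSpectrum (𝓞 K))} {c : HeightOneSpectrum (𝓞 K) → ℝ}
    {v : HeightOneSpectrum (𝓞 K)} (h : v ∉ R) : cut R c v = c v / qq v := by
  unfold cut
  rw [if_neg h]

/-- finitely many primes do not matter -/
theorem EA_fin {φ ψ : HeightOneSpectrum (𝓞 K) → ℝ} (hφ : Bd φ) (hψ : Bd ψ)
    (R : Finset (HeightOneSpectrum (𝓞 K))) (h : ∀ v, v ∉ R → φ v = ψ v) :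
    Tendsto (fun s => EA K s φ - EA K s ψ) (𝓝[>] 1) (𝓝 0) := by
  have h1 : Bd fun v => φ v + -(ψ v) := hφ.add hψ.neg
  have h2 := (mnA K).fin (fun v => φ v + -(ψ v)) h1 (by
    refine R.finite_toSet.subset fun v hv => ?_
    by_contra hcon
    refine hv ?_
    have : v ∉ R := hcon
    rw [h v this]
    ring)
  refine h2.congr' ?_
  filter_upwards [pl_EA (K := K)] with s hs
  rw [← hs.sub hφ hψ]
  congr 1

/-- the normalised trace of a member of the family -/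
noncomputable def uf (C : Var K) (v : HeightOneSpectrum (𝓞 K)) : ℝ :=
  open Classical in if v ∈ C.R then 0 else C.a v / √(qq v)

theorem abs_uf (C : Var K) (v : HeightOneSpectrum (𝓞 K)) : |uf C v| ≤ C.N₁ := by
  unfold uf
  split_ifs with hv
  · rw [abs_zero]
    exact Nat.cast_nonneg _
  · rw [abs_div, abs_of_pos (sqrt_pos v), div_le_iff₀ (sqrt_pos v)]
    exact C.weil₁ v hv

theorem bd_uf (C : Var K) : Bd (uf C) := ⟨C.N₁, abs_uf C⟩

theorem uf_of (C : Var K) {v : HeightOneSpectrum (𝓞 K)} (hv : v ∉ C.R) :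
    uf C v = C.a v / √(qq v) := by
  unfold uf
  rw [if_neg hv]

theorem uf_mul (C C' : Var K) {v : HeightOneSpectrum (𝓞 K)} (hv : v ∉ C.R) (hv' : v ∉ C'.R) :
    uf C v * uf C' v = C.a v * C'.a v / qq v := by
  rw [uf_of C hv, uf_of C' hv', div_mul_div_comm, sqrt_mul_sqrt]

theorem pair_bound (C C' : Var K) {v : HeightOneSpectrum (𝓞 K)} (hv : v ∉ C.R) (hv' : v ∉ C'.R) :
    |C.a v * C'.a v| ≤ (C.N₁ * C'.N₁ : ℝ) * qq v := by
  rw [abs_mul]
  have h1 : |C.a v| ≤ C.N₁ * √(qq v) := C.weil₁ v hv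
  have h2 : |C'.a v| ≤ C'.N₁ * √(qq v) := C'.weil₁ v hv'
  calc |C.a v| * |C'.a v| ≤ (C.N₁ * √(qq v)) * (C'.N₁ * √(qq v)) :=
        mul_le_mul h1 h2 (abs_nonneg _) (mul_nonneg (Nat.cast_nonneg _) (Real.sqrt_nonneg _))
    _ = (C.N₁ * C'.N₁ : ℝ) * (√(qq v) * √(qq v)) := by ring
    _ = _ := by rw [sqrt_mul_sqrt]

variable {β : Type} {C : β → Var K} {e : β → ℝ}

/-- limits over `s > 2` of functions of `s - 1` are limits over `s > 1` -/
theorem of_shift {F : ℝ → ℝ} {m : ℝ} (h : Tendsto (fun s => F (s - 1)) (𝓝[>] 2) (𝓝 m)) :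
    Tendsto F (𝓝[>] 1) (𝓝 m) := by
  have h1 : Tendsto (fun s : ℝ => s + 1) (𝓝[>] 1) (𝓝[>] 2) := by
    refine tendsto_nhdsWithin_of_tendsto_nhds_of_eventually_within _ ?_ ?_
    · have h1 : Tendsto (fun s : ℝ => s + 1) (𝓝 1) (𝓝 (1 + 1)) := tendsto_id.add_const 1
      have h2 : (1 : ℝ) + 1 = 2 := by norm_num
      rw [h2] at h1
      exact h1.mono_left nhdsWithin_le_nhds
    · filter_upwards [self_mem_nhdsWithin] with s hs
      have hs' : (1 : ℝ) < s := hs
      change 2 < s + 1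
      linarith
  refine (h.comp h1).congr fun s => ?_
  rw [Function.comp_apply]
  congr 1
  ring

theorem fam_diag (hfam : IsFamily C e) (b : β) :
    Tendsto (fun s => EA K s fun v => uf (C b) v * uf (C b) v) (𝓝[>] 1) (𝓝 (e b)) := by
  have h1 := (hfam.1 b).2
  have h1' : Tendsto (fun s => EA K s (cut (C b).R fun v => (C b).a v * (C b).a v)) (𝓝[>] 1)
      (𝓝 (e b)) := of_shift (h1.congr fun s => res_eq _ _ s)
  have h2 := EA_fin (bd_cut (R := (C b).R) (c := fun v => (C b).a v * (C b).a v)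
    fun v hv => pair_bound (C b) (C b) hv hv) ((bd_uf (C b)).mul (bd_uf (C b))) (C b).R
    fun v hv => by rw [cut_of hv, uf_mul (C b) (C b) hv hv]
  have h3 := h1'.sub h2
  rw [sub_zero] at h3
  exact h3.congr fun s => sub_sub_cancel _ _

theorem fam_off (hfam : IsFamily C e) {b b' : β} (hb : b ≠ b') :
    Tendsto (fun s => EA K s fun v => uf (C b) v * uf (C b') v) (𝓝[>] 1) (𝓝 0) := by
  classical
  have h1 := hfam.2 b b' hb
  have h1' : Tendsto (fun s => EA K s (cut ((C b).R ∪ (C b').R) fun v =>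
      (C b).a v * (C b').a v)) (𝓝[>] 1) (𝓝 0) := by
    refine of_shift ?_
    have h0 : Tendsto (res ((C b).R ∪ (C b').R) fun v => (C b).a v * (C b').a v) (𝓝[>] 2)
        (𝓝 0) := by
      convert h1 using 2
    exact h0.congr fun s => res_eq _ _ s
  have h2 := EA_fin (bd_cut (R := (C b).R ∪ (C b').R) (c := fun v => (C b).a v * (C b').a v)
    fun v hv => by
      rw [Finset.mem_union, not_or] at hv
      exact pair_bound (C b) (C b') hv.1 hv.2) ((bd_uf (C b)).mul (bd_uf (C b')))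
    ((C b).R ∪ (C b').R) fun v hv => by
      rw [Finset.mem_union, not_or] at hv
      rw [cut_of (by rw [Finset.mem_union, not_or]; exact hv), uf_mul (C b) (C b') hv.1 hv.2]
  have h3 := h1'.sub h2
  rw [sub_zero] at h3
  exact h3.congr fun s => sub_sub_cancel _ _

/-- the local estimate -/
theorem local_est (f : Fibration K) {k : ℕ} (B : Set (MvPolynomial (Fin k) (𝓞 K))) {g : ℕ}
    (hg : 1 ≤ g) (C₀ : Var K) {n : ℕ} (E : Set (MvPolynomial (Fin n) (MvPolynomial (Fin f.l) (𝓞 K))))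
    {v : HeightOneSpectrum (𝓞 K)} (hv : v ∉ C₀.R) {𝔄 𝔅 𝔅' aB c₁ : ℝ} (_ : 0 ≤ c₁)
    (hc : ∀ (κ : Type) [Field κ] [Finite κ] (φ : 𝓞 K →+* κ),
      RingHom.ker φ = v.asIdeal → ∀ t ∈ f.points φ,
      (Nat.card κ - 1) * cone E (MvPolynomial.eval₂Hom φ t) =
        cone f.eqFibre (MvPolynomial.eval₂Hom φ t) * cone C₀.X φ)
    (h0 : ∀ (κ : Type) [Field κ] (φ : 𝓞 K →+* κ),
      RingHom.ker φ = v.asIdeal → Nat.card κ = Ideal.absNorm v.asIdeal → ∀ t ∈ f.points φ,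
        IsTrace f.eqFibre f.r 0 (MvPolynomial.eval₂Hom φ t) 1)
    (hn : ∀ (κ : Type) [Field κ] (φ : 𝓞 K →+* κ),
      RingHom.ker φ = v.asIdeal → Nat.card κ = Ideal.absNorm v.asIdeal →
      |((f.points φ).ncard : ℝ) - (Ideal.absNorm v.asIdeal : ℝ) ^ f.m| ≤
        c₁ * (Ideal.absNorm v.asIdeal : ℝ) ^ f.m / √(Ideal.absNorm v.asIdeal : ℝ))
    (h𝔄 : ∃ a : ℝ, ValueAt (traceValue B g 1) v a ∧ ValueAt (averageValue f 1) v (𝔄 + a))
    (h𝔅 : ValueAt (averageValue f 2) v 𝔅)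
    (h𝔅' : ValueAt (averageValue (times f C₀ E) 2) v 𝔅')
    (haB : ValueAt (traceValue B g 1) v aB) :
    |(𝔅' - 𝔅 - C₀.b v) / qq v - aB * C₀.a v / qq v| ≤
      (|𝔄| * C₀.N₁ + C₀.N₂ * c₁) / √(qq v) := by
  obtain ⟨κ, _, _, φ, hk, hcard⟩ := exists_ext v 1 le_rfl
  rw [pow_one] at hcard
  obtain ⟨a, h1, h2⟩ := h𝔄
  have e1 : a = aB := isTrace_unique (by omega) (valueAt_self h1 φ hk hcard)
    (valueAt_self haB φ hk hcard)
  have hCc : (Nat.card κ : ℝ) = qq v := by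
    unfold qq
    exact_mod_cast hcard
  have key := average_times f C₀ E (φ := φ) (fun κ' _ _ θ t ht => by
      refine hc κ' (θ.comp φ) ?_ t ht
      rw [← hk]
      ext x
      rw [RingHom.mem_ker, RingHom.mem_ker, RingHom.comp_apply, map_eq_zero])
    (fun t ht => h0 κ φ hk hcard t ht) (valueAt_self h2 φ hk hcard) (valueAt_self h𝔅 φ hk hcard)
    (valueAt_self (C₀.trace₀ v hv) φ hk hcard) (valueAt_self (C₀.trace₁ v hv) φ hk hcard)
    (valueAt_self (C₀.trace₂ v hv) φ hk hcard) (valueAt_self h𝔅' φ hk hcard)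
  have hcount := hn κ φ hk hcard
  rw [hCc, e1] at key
  have hq := qq_pos v
  have hs := sqrt_pos v
  have hss := sqrt_mul_sqrt v
  have hqm : (0 : ℝ) < qq v ^ f.m := pow_pos hq _
  have hw1 : |C₀.a v| ≤ C₀.N₁ * √(qq v) := C₀.weil₁ v hv
  have hw2 : |C₀.b v| ≤ C₀.N₂ * qq v := C₀.weil₂ v hv
  set m : ℝ := ((f.points φ).ncard : ℝ) with hm
  have hm1 : |m / qq v ^ f.m - 1| ≤ c₁ / √(qq v) := by
    have h3 : m / qq v ^ f.m - 1 = (m - qq v ^ f.m) / qq v ^ f.m := by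
      field_simp
    rw [h3, abs_div, abs_of_pos hqm, div_le_iff₀ hqm]
    refine hcount.trans (le_of_eq ?_)
    change c₁ * qq v ^ f.m / √(qq v) = _
    ring
  have h4 : (𝔅' - 𝔅 - C₀.b v) / qq v - aB * C₀.a v / qq v =
      𝔄 * C₀.a v / qq v + C₀.b v / qq v * (m / qq v ^ f.m - 1) := by
    rw [key]
    field_simp
    ring
  rw [h4, add_div]
  refine (abs_add_le _ _).trans (add_le_add ?_ ?_)
  · rw [abs_div, abs_mul, abs_of_pos hq, div_le_div_iff₀ hq hs]
    calc |𝔄| * |C₀.a v| * √(qq v) ≤ |𝔄| * (C₀.N₁ * √(qq v)) * √(qq v) :=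
          mul_le_mul_of_nonneg_right (mul_le_mul_of_nonneg_left hw1 (abs_nonneg _)) hs.le
      _ = |𝔄| * C₀.N₁ * (√(qq v) * √(qq v)) := by ring
      _ = _ := by rw [hss]
  · rw [abs_mul, abs_div, abs_of_pos hq, mul_div_assoc]
    refine mul_le_mul ?_ hm1 (abs_nonneg _) (Nat.cast_nonneg _)
    rw [div_le_iff₀ hq]
    exact hw2

variable {f : Fibration K} {k g : ℕ} {B : Set (MvPolynomial (Fin k) (𝓞 K))} {n : β →₀ ℕ} {r : ℕ}

theorem cof_notMem (S : Finset (HeightOneSpectrum (𝓞 K))) : ∀ᶠ v in cofinite, v ∉ S := by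
  rw [Filter.eventually_cofinite]
  refine S.finite_toSet.subset fun v hv => ?_
  by_contra h
  exact hv h

/-- **The decomposition.** -/
theorem decomp0 (hf : IsConnected f) (hg : 1 ≤ g) (hB : Complement B g C n r)
    {R₁ R : Finset (HeightOneSpectrum (𝓞 K))} {𝔄 𝔅 : HeightOneSpectrum (𝓞 K) → ℝ}
    (h𝔄 : IsNagao f B g R₁ 𝔄) (h𝔅 : IsAverages f R 𝔅) :
    ∃ w : HeightOneSpectrum (𝓞 K) → ℝ, (∀ v, |w v| ≤ |(r : ℝ)|) ∧
      ∀ (C₀ : Var K) (k' : ℕ) (E : Set (MvPolynomial (Fin k') (MvPolynomial (Fin f.l) (𝓞 K)))),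
        IsProduct f C₀ E → ∀ (R' : Finset (HeightOneSpectrum (𝓞 K)))
        (𝔅' : HeightOneSpectrum (𝓞 K) → ℝ), IsAverages (times f C₀ E) R' 𝔅' →
        Tendsto (fun s => (EA K s (cut R' 𝔅') - EA K s (cut R 𝔅) - EA K s (cut C₀.R C₀.b)) -
          (EA K s fun v => w v * uf C₀ v) -
          ∑ b' ∈ n.support, (n b' : ℝ) * EA K s fun v => uf (C b') v * uf C₀ v)
          (𝓝[>] 1) (𝓝 0) := by
  classical
  set P : HeightOneSpectrum (𝓞 K) → ℝ → Prop := fun v a => ∃ γ : Fin r → ℂ,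
    ValueAt (traceValue B g 1) v a ∧ (∀ j, ‖γ j‖ = √(Ideal.absNorm v.asIdeal : ℝ)) ∧
    (a : ℂ) = ∑ b ∈ n.support, ((n b : ℝ) * (C b).a v : ℝ) + ∑ j, γ j with hP
  set aB : HeightOneSpectrum (𝓞 K) → ℝ := fun v => if h : ∃ a, P v a then h.choose else 0 with haB
  have hgood : ∀ᶠ v in cofinite, P v (aB v) := hB.mono fun v hv => by
    have h : ∃ a, P v a := hv
    rw [haB]
    simp only
    rw [dif_pos h]
    exact h.choose_spec
  set w : HeightOneSpectrum (𝓞 K) → ℝ := fun v => if P v (aB v) then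
    (aB v - ∑ b ∈ n.support, (n b : ℝ) * (C b).a v) / √(qq v) else 0 with hw
  have hdiff : ∀ v, P v (aB v) →
      |aB v - ∑ b ∈ n.support, (n b : ℝ) * (C b).a v| ≤ r * √(qq v) := by
    rintro v ⟨γ, -, h1, h2⟩
    have h3 : ((aB v - ∑ b ∈ n.support, (n b : ℝ) * (C b).a v : ℝ) : ℂ) = ∑ j, γ j := by
      push_cast
      rw [h2]
      push_cast
      ring
    have h4 : ‖((aB v - ∑ b ∈ n.support, (n b : ℝ) * (C b).a v : ℝ) : ℂ)‖ ≤ r * √(qq v) := by
      rw [h3]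
      refine (norm_sum_le _ _).trans (le_of_eq ?_)
      rw [Finset.sum_congr rfl fun j _ => h1 j, Finset.sum_const, Finset.card_univ,
        Fintype.card_fin, nsmul_eq_mul]
      rfl
    rwa [Complex.norm_real, Real.norm_eq_abs] at h4
  have hwb : ∀ v, |w v| ≤ |(r : ℝ)| := by
    intro v
    rw [hw]
    simp only
    split_ifs with h
    · rw [abs_div, abs_of_pos (sqrt_pos v), div_le_iff₀ (sqrt_pos v),
        show |(r : ℝ)| = r from abs_of_nonneg (Nat.cast_nonneg r)]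
      exact hdiff v h
    · rw [abs_zero]
      exact abs_nonneg _
  refine ⟨w, hwb, fun C₀ k' E hE R' 𝔅' h𝔅' => ?_⟩
  obtain ⟨h𝔄1, cA, h𝔄2⟩ := h𝔄
  obtain ⟨h𝔅1, cB, h𝔅2⟩ := h𝔅
  obtain ⟨h𝔅1', cB', h𝔅2'⟩ := h𝔅'
  obtain ⟨hf0, cf, hf1⟩ := hf
  have b1 : Bd (cut R 𝔅) := bd_cut h𝔅2
  have b2 : Bd (cut R' 𝔅') := bd_cut h𝔅2'
  have b3 : Bd (cut C₀.R C₀.b) := bd_cut C₀.weil₂
  -- the decomposition of the difference
  set cb : HeightOneSpectrum (𝓞 K) → ℝ := fun v =>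
    ∑ b' ∈ n.support, (n b' : ℝ) * (uf (C b') v * uf C₀ v) with hcb
  have bcb : Bd cb := Bd.sum n.support fun b' _ => Bd.smul ((bd_uf (C b')).mul (bd_uf C₀)) _
  have bwu : Bd fun v => w v * uf C₀ v := Bd.mul (f := w) ⟨_, hwb⟩ (bd_uf C₀)
  have d1 : Bd fun v => cut R' 𝔅' v - cut R 𝔅 v := by
    have := b2.add b1.neg
    exact this
  have d2 : Bd fun v => cut R' 𝔅' v - cut R 𝔅 v - cut C₀.R C₀.b v := by
    have := d1.add b3.neg
    exact this
  have d3 : Bd fun v => cut R' 𝔅' v - cut R 𝔅 v - cut C₀.R C₀.b v - w v * uf C₀ v := by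
    have := d2.add bwu.neg
    exact this
  set D : HeightOneSpectrum (𝓞 K) → ℝ := fun v =>
    cut R' 𝔅' v - cut R 𝔅 v - cut C₀.R C₀.b v - w v * uf C₀ v - cb v with hD
  have bD : Bd D := by
    have := d3.add bcb.neg
    exact this
  set D₀ : ℝ := |cA| * C₀.N₁ + C₀.N₂ * |cf| with hD₀
  have hD₀0 : 0 ≤ D₀ := by positivity
  have hDs : ∀ᶠ v in cofinite, |D v| ≤ D₀ / √(qq v) := by
    have hall : ∀ᶠ v in cofinite, ∀ b' ∈ n.support, v ∉ (C b').R := by
      rw [Filter.eventually_all_finset]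
      exact fun b' _ => cof_notMem _
    filter_upwards [hgood, cof_notMem R₁, cof_notMem R, cof_notMem R', cof_notMem C₀.R, hall,
      hf0, hf1, hE] with v g1 g2 g3 g4 g5 g6 g7 g8 g9
    have hq := qq_pos v
    have hs := sqrt_pos v
    have hss := sqrt_mul_sqrt v
    obtain ⟨γ, hval, -, -⟩ := id g1
    have h1 := local_est f B hg C₀ E (c₁ := |cf|) g5 (abs_nonneg cf) g9 g7
      (fun κ _ φ hk hc => (g8 κ φ hk hc).trans (by
        refine div_le_div_of_nonneg_right ?_ (Real.sqrt_nonneg _)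
        exact mul_le_mul_of_nonneg_right (le_abs_self cf) (by positivity)))
      (h𝔄1 v g2) (h𝔅1 v g3) (h𝔅1' v g4) hval
    have h2 : D v = (𝔅' v - 𝔅 v - C₀.b v) / qq v - aB v * C₀.a v / qq v := by
      rw [hD]
      simp only
      rw [hw, hcb]
      simp only
      rw [cut_of g3, cut_of g4, cut_of g5, if_pos g1, uf_of C₀ g5]
      have h3 : ∑ b' ∈ n.support, (n b' : ℝ) * (uf (C b') v * (C₀.a v / √(qq v))) =
          (∑ b' ∈ n.support, (n b' : ℝ) * (C b').a v) * (C₀.a v / qq v) := by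
        rw [Finset.sum_mul]
        refine Finset.sum_congr rfl fun b' hb' => ?_
        rw [uf_of (C b') (g6 b' hb'), div_mul_div_comm, hss]
        ring
      rw [h3, div_mul_div_comm, hss]
      ring
    rw [h2]
    refine h1.trans ?_
    refine div_le_div_of_nonneg_right ?_ hs.le
    rw [hD₀]
    refine add_le_add ?_ le_rfl
    exact mul_le_mul_of_nonneg_right ((h𝔄2 v g2).trans (le_abs_self _)) (Nat.cast_nonneg _)
  have l3 := (hsSmall (mnA K) bD fun η hη => by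
    filter_upwards [hDs, small_of (K := K) hD₀0 hη] with v g1 g2
    exact g1.trans g2).2
  refine l3.congr' ?_
  filter_upwards [pl_EA (K := K)] with s hs
  have e1 : EA K s D = EA K s (cut R' 𝔅') - EA K s (cut R 𝔅) - EA K s (cut C₀.R C₀.b) -
      (EA K s fun v => w v * uf C₀ v) - EA K s cb := by
    rw [hD, hs.sub d3 bcb, hs.sub d2 bwu, hs.sub d1 b3, hs.sub b2 b1]
  have e3 : EA K s cb = ∑ b' ∈ n.support, (n b' : ℝ) * EA K s fun v =>
      uf (C b') v * uf C₀ v := by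
    rw [hcb]
    exact hs.sum n.support (fun b' _ => (bd_uf (C b')).mul (bd_uf C₀)) fun b' => (n b' : ℝ)
  rw [e1, e3]

/-- the difference of the residues -/
theorem excess_eq (C₀ : Var K) (R' R : Finset (HeightOneSpectrum (𝓞 K)))
    (𝔅' 𝔅 : HeightOneSpectrum (𝓞 K) → ℝ) (s : ℝ) :
    res R' 𝔅' s - res R 𝔅 s - res C₀.R C₀.b s =
      EA K (s - 1) (cut R' 𝔅') - EA K (s - 1) (cut R 𝔅) - EA K (s - 1) (cut C₀.R C₀.b) := by
  rw [res_eq, res_eq, res_eq]

/-- the decomposition for the members of the family -/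
theorem decomp (hf : IsConnected f) (hg : 1 ≤ g) (hfam : IsFamily C e)
    (hB : Complement B g C n r)
    {R₁ R : Finset (HeightOneSpectrum (𝓞 K))} {𝔄 𝔅 : HeightOneSpectrum (𝓞 K) → ℝ}
    (h𝔄 : IsNagao f B g R₁ 𝔄) (h𝔅 : IsAverages f R 𝔅) :
    ∃ w : HeightOneSpectrum (𝓞 K) → ℝ, (∀ v, |w v| ≤ |(r : ℝ)|) ∧
      ∀ (b : β) (k' : ℕ) (E : Set (MvPolynomial (Fin k') (MvPolynomial (Fin f.l) (𝓞 K)))),
        IsProduct f (C b) E → ∀ (R' : Finset (HeightOneSpectrum (𝓞 K)))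
        (𝔅' : HeightOneSpectrum (𝓞 K) → ℝ), IsAverages (times f (C b) E) R' 𝔅' →
        Tendsto (fun s => (EA K s (cut R' 𝔅') - EA K s (cut R 𝔅) - EA K s (cut (C b).R (C b).b) -
          n b * e b) - (EA K s fun v => w v * uf (C b) v)) (𝓝[>] 1) (𝓝 0) := by
  classical
  obtain ⟨w, hw, h⟩ := decomp0 hf hg hB h𝔄 h𝔅
  refine ⟨w, hw, fun b k' E hE R' 𝔅' h𝔅' => ?_⟩
  have l4 : Tendsto (fun s => ∑ b' ∈ n.support, (n b' : ℝ) * EA K s fun v =>
      uf (C b') v * uf (C b) v) (𝓝[>] 1) (𝓝 (n b * e b)) := by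
    have h4 : Tendsto (fun s => ∑ b' ∈ n.support, (n b' : ℝ) * EA K s fun v =>
        uf (C b') v * uf (C b) v) (𝓝[>] 1)
        (𝓝 (∑ b' ∈ n.support, (n b' : ℝ) * (if b' = b then e b else 0))) := by
      refine tendsto_finsetSum _ fun b' _ => ?_
      by_cases hb : b' = b
      · subst hb
        rw [if_pos rfl]
        exact (fam_diag hfam b').const_mul _
      · rw [if_neg hb]
        exact (fam_off hfam hb).const_mul _
    have h5 : ∑ b' ∈ n.support, (n b' : ℝ) * (if b' = b then e b else 0) = n b * e b := by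
      by_cases hb : b ∈ n.support
      · rw [Finset.sum_eq_single_of_mem b hb]
        · rw [if_pos rfl]
        · intro b' _ hb'
          rw [if_neg hb', mul_zero]
      · rw [Finset.sum_eq_zero]
        · have : n b = 0 := by simpa using hb
          rw [this, Nat.cast_zero, zero_mul]
        · intro b' hb'
          have : b' ≠ b := fun h => hb (h ▸ hb')
          rw [if_neg this, mul_zero]
    rw [h5] at h4
    exact h4
  have l5 := (h (C b) k' E hE R' 𝔅' h𝔅').add (l4.sub_const (n b * e b))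
  simp only [sub_self, add_zero] at l5
  refine l5.congr fun T => ?_
  ring

/-- products if the Chow trace is zero -/
theorem trace_zero (hf : IsConnected f) (hg : 1 ≤ g) (hB : Complement B g C 0 0)
    {R₁ R : Finset (HeightOneSpectrum (𝓞 K))} {𝔄 𝔅 : HeightOneSpectrum (𝓞 K) → ℝ}
    (h𝔄 : IsNagao f B g R₁ 𝔄) (h𝔅 : IsAverages f R 𝔅) (C₀ : Var K) {k' : ℕ}
    {E : Set (MvPolynomial (Fin k') (MvPolynomial (Fin f.l) (𝓞 K)))} (hE : IsProduct f C₀ E)
    {R' : Finset (HeightOneSpectrum (𝓞 K))} {𝔅' : HeightOneSpectrum (𝓞 K) → ℝ}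
    (h𝔅' : IsAverages (times f C₀ E) R' 𝔅') :
    Tendsto (fun s => res R' 𝔅' s - res R 𝔅 s - res C₀.R C₀.b s) (𝓝[>] 2) (𝓝 0) := by
  obtain ⟨w, hw, h⟩ := decomp0 hf hg hB h𝔄 h𝔅
  have hw0 : ∀ v, w v = 0 := fun v => by
    have := hw v
    rw [Nat.cast_zero, abs_zero] at this
    exact abs_nonpos_iff.1 this
  have h1 := (h C₀ k' E hE R' 𝔅' h𝔅').comp tendsto_shift
  refine h1.congr fun s => ?_
  rw [Function.comp_apply, excess_eq]
  have e1 : (EA K (s - 1) fun v => w v * uf C₀ v) = 0 := by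
    have : (fun v => w v * uf C₀ v) = fun v => (0 : ℝ) * uf C₀ v := by
      funext v
      rw [hw0]
    rw [this, (mnA K).smul, zero_mul]
  rw [e1, sub_zero]
  simp

/-- **Bessel's inequality for the residues of the products.** -/
theorem main (hf : IsConnected f) (hg : 1 ≤ g) (hfam : IsFamily C e) (hB : Complement B g C n r)
    {R₁ R : Finset (HeightOneSpectrum (𝓞 K))} {𝔄 𝔅 : HeightOneSpectrum (𝓞 K) → ℝ}
    (h𝔄 : IsNagao f B g R₁ 𝔄) (h𝔅 : IsAverages f R 𝔅) {k' : β → ℕ}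
    {E : ∀ b, Set (MvPolynomial (Fin (k' b)) (MvPolynomial (Fin f.l) (𝓞 K)))}
    (hE : ∀ b, IsProduct f (C b) (E b)) {R' : β → Finset (HeightOneSpectrum (𝓞 K))}
    {𝔅' : β → HeightOneSpectrum (𝓞 K) → ℝ}
    (h𝔅' : ∀ b, IsAverages (times f (C b) (E b)) (R' b) (𝔅' b))
    (S : Finset β) {η : ℝ} (hη : 0 < η) :
    ∀ᶠ s : ℝ in 𝓝[>] 2, ∑ b ∈ S, (res (R' b) (𝔅' b) s - res R 𝔅 s - res (C b).R (C b).b s -
      n b * e b) ^ 2 / e b ≤ (r : ℝ) ^ 2 + η := by
  obtain ⟨w, hw, hx⟩ := decomp hf hg hfam hB h𝔄 h𝔅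
  have h1 := bessel_pl (mnA K) pl_EA (fun b => bd_uf (C b)) (fun b => (hfam.1 b).1)
    (fam_diag hfam) (fun b b' hb => fam_off hfam hb) hw
    (fun b => hx b (k' b) (E b) (hE b) (R' b) (𝔅' b) (h𝔅' b)) S hη
  filter_upwards [tendsto_shift.eventually h1] with s hs
  refine le_trans (le_of_eq ?_) hs
  refine Finset.sum_congr rfl fun b _ => ?_
  rw [excess_eq]

/-- the residue for the norms -/
theorem res_norm (R : Finset (HeightOneSpectrum (𝓞 K))) :
    Tendsto (res R fun v => (Ideal.absNorm v.asIdeal : ℝ)) (𝓝[>] 2) (𝓝 1) := by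
  have hb : Bd (cut R fun v => (Ideal.absNorm v.asIdeal : ℝ)) := bd_cut (C := 1) fun v _ => by
    rw [one_mul, abs_of_nonneg (Nat.cast_nonneg _)]
    rfl
  have h1 := EA_fin hb (Bd.const 1) R fun v hv => by
    rw [cut_of hv]
    exact div_self (qq_pos v).ne'
  have h2 := h1.add (mnA K).one
  rw [zero_add] at h2
  have h3 : Tendsto (fun s => EA K s (cut R fun v => (Ideal.absNorm v.asIdeal : ℝ))) (𝓝[>] 1)
      (𝓝 1) := h2.congr fun s => by ring
  exact (h3.comp tendsto_shift).congr fun s => (res_eq _ _ s).symm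

end

end Pool.Agent.R461.RF
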